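import Mathlib

/-!
# Orderings of the omega-primality values of three generators

Let `Γ` be a numerical monoid generated by `0 < n₁ < n₂ < n₃`. We prove that
`min (ω(n₁)) (ω(n₂)) ≤ ω(n₃)`, hence none of the orderings `ω(n₁) > ω(n₂) > ω(n₃)`,
`ω(n₁) = ω(n₂) > ω(n₃)`, `ω(n₃) < ω(n₁) < ω(n₂)` occurs.

Proof. Let `W = ω(n₃)` and suppose `W < ω(n₁)`, `W < ω(n₂)`. There are `a₂ + a₃ > W` such that
`a₂ n₂ + a₃ n₃ ∈ n₁ + Γ`, minimal with this property (a bullet of `n₁` with more than `W` atoms), and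
`b₁ + b₃ > W` with `b₁ n₁ + b₃ n₃ ∈ n₂ + Γ`, minimal. Whenever `j₁ n₁ + j₂ n₂ ∈ n₃ + Γ` there are
`i₁ ≤ j₁`, `i₂ ≤ j₂`, `i₁ + i₂ ≤ W` with `i₁ n₁ + i₂ n₂ ∈ n₃ + Γ`. A case distinction according to
the vanishing of the `a`'s and `b`'s (theorem `core`) leads to a contradiction in each case.
-/

set_option autoImplicit false

namespace Pool.Agent.Results.MP_1fb722_al.OmegaOrderings

/-- `a n₂ + b n₃ ∈ n₁ + ⟨n₁, n₂, n₃⟩`. -/
def P1 (n1 n2 n3 a b : ℕ) : Prop := ∃ x y z : ℕ, a * n2 + b * n3 = (x + 1) * n1 + y * n2 + z * n3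
/-- `a n₁ + b n₃ ∈ n₂ + ⟨n₁, n₂, n₃⟩`. -/
def P2 (n1 n2 n3 a b : ℕ) : Prop := ∃ x y z : ℕ, a * n1 + b * n3 = x * n1 + (y + 1) * n2 + z * n3
/-- `a n₁ + b n₂ ∈ n₃ + ⟨n₁, n₂, n₃⟩`. -/
def P3 (n1 n2 n3 a b : ℕ) : Prop := ∃ x y z : ℕ, a * n1 + b * n2 = x * n1 + y * n2 + (z + 1) * n3

theorem P1.mono {n1 n2 n3 a b a' b' : ℕ} (h : P1 n1 n2 n3 a b) (ha : a ≤ a') (hb : b ≤ b') :
    P1 n1 n2 n3 a' b' := by
  obtain ⟨x, y, z, h⟩ := h
  obtain ⟨u, rfl⟩ := Nat.exists_eq_add_of_le ha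
  obtain ⟨v, rfl⟩ := Nat.exists_eq_add_of_le hb
  exact ⟨x, y + u, z + v, by linarith⟩

theorem P2.mono {n1 n2 n3 a b a' b' : ℕ} (h : P2 n1 n2 n3 a b) (ha : a ≤ a') (hb : b ≤ b') :
    P2 n1 n2 n3 a' b' := by
  obtain ⟨x, y, z, h⟩ := h
  obtain ⟨u, rfl⟩ := Nat.exists_eq_add_of_le ha
  obtain ⟨v, rfl⟩ := Nat.exists_eq_add_of_le hb
  exact ⟨x + u, y, z + v, by linarith⟩

/-- The combinatorial core. -/
theorem core (n1 n2 n3 W : ℕ) (h1 : 0 < n1) (h12 : n1 < n2) (h23 : n2 < n3)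
    (hW : ∀ j1 j2, P3 n1 n2 n3 j1 j2 → ∃ i1 i2, i1 ≤ j1 ∧ i2 ≤ j2 ∧ i1 + i2 ≤ W ∧
      P3 n1 n2 n3 i1 i2)
    (a2 a3 : ℕ) (ha : W < a2 + a3) (hP1 : P1 n1 n2 n3 a2 a3)
    (ha2 : ∀ a, a2 = a + 1 → ¬ P1 n1 n2 n3 a a3) (ha3 : ∀ a, a3 = a + 1 → ¬ P1 n1 n2 n3 a2 a)
    (b1 b3 : ℕ) (hb : W < b1 + b3) (hP2 : P2 n1 n2 n3 b1 b3)
    (hb1 : ∀ a, b1 = a + 1 → ¬ P2 n1 n2 n3 a b3) (hb3 : ∀ a, b3 = a + 1 → ¬ P2 n1 n2 n3 b1 a) :
    False := by
  -- some multiple `A n1`, `A ≤ W`, lies in `n3 + Γ`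
  obtain ⟨A, A0, hA, hA00, hAW, s1, s2, s3, hs⟩ := hW n3 0 ⟨0, 0, n1 - 1, by
    obtain ⟨m, rfl⟩ := Nat.exists_eq_add_of_lt h1
    simp only [Nat.zero_add, Nat.add_sub_cancel]
    ring⟩
  have hA0 : A0 = 0 := by omega
  subst hA0
  obtain ⟨B0, B, hB0, hB, hBW, t1, t2, t3, ht⟩ := hW 0 n3 ⟨0, 0, n2 - 1, by
    have : 0 < n2 := by omega
    obtain ⟨m, rfl⟩ := Nat.exists_eq_add_of_lt this
    simp only [Nat.zero_add, Nat.add_sub_cancel]
    ring⟩
  have hB0 : B0 = 0 := by omega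
  subst hB0
  -- case (i) is impossible
  have hi : a2 = 0 ∨ a3 = 0 := by
    by_contra hcon
    push Not at hcon
    obtain ⟨c2, rfl⟩ := Nat.exists_eq_succ_of_ne_zero hcon.1
    obtain ⟨c3, rfl⟩ := Nat.exists_eq_succ_of_ne_zero hcon.2
    obtain ⟨x, y, z, h⟩ := hP1
    have hy : y = 0 := by
      by_contra hy
      obtain ⟨y', rfl⟩ := Nat.exists_eq_succ_of_ne_zero hy
      exact ha2 c2 rfl ⟨x, y', z, by simp only [Nat.succ_eq_add_one] at *; linarith⟩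
    have hz : z = 0 := by
      by_contra hz
      obtain ⟨z', rfl⟩ := Nat.exists_eq_succ_of_ne_zero hz
      exact ha3 c3 rfl ⟨x, y, z', by simp only [Nat.succ_eq_add_one] at *; linarith⟩
    subst hy hz
    simp only [Nat.succ_eq_add_one] at *
    have hk : c2 + 1 + (c3 + 1) < x + 1 := by
      by_contra hk
      push Not at hk
      have e1 : (x + 1) * n1 ≤ (c2 + 1 + (c3 + 1)) * n1 := Nat.mul_le_mul_right _ hk
      have e2 : (c2 + 1) * n1 < (c2 + 1) * n2 := Nat.mul_lt_mul_of_pos_left h12 (by omega)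
      have e3 : (c3 + 1) * n1 < (c3 + 1) * n3 := Nat.mul_lt_mul_of_pos_left (by omega) (by omega)
      linarith
    obtain ⟨d, hd⟩ : ∃ d, x + 1 = A + (d + 1) := ⟨x - A, by omega⟩
    refine ha3 c3 rfl ⟨d + s1, s2, s3, ?_⟩
    have e2 : (x + 1) * n1 = A * n1 + (d + 1) * n1 := by rw [hd]; ring
    linarith
  -- case (ii)
  have hii : a3 = 0 → (∀ m, m ≤ W → ¬ P1 n1 n2 n3 m 0) ∧
      ∃ B' s, 0 < B' ∧ B' ≤ W ∧ B' * n2 = s * n3 := by
    rintro rfl
    have e1 : ∀ m, m ≤ W → ¬ P1 n1 n2 n3 m 0 := by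
      intro m hm h
      obtain ⟨c, rfl⟩ : ∃ c, a2 = c + 1 := ⟨a2 - 1, by omega⟩
      exact ha2 c rfl (h.mono (by omega) le_rfl)
    refine ⟨e1, ?_⟩
    have e2 : t1 = 0 := by
      by_contra h
      obtain ⟨t, rfl⟩ := Nat.exists_eq_succ_of_ne_zero h
      exact e1 B (by omega) ⟨t, t2, t3 + 1, by simp only [Nat.succ_eq_add_one] at *; linarith⟩
    subst e2
    have e3 : t2 < B := by
      by_contra h
      push Not at h
      have := Nat.mul_le_mul_right n2 h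
      have hp : 0 < (t3 + 1) * n3 := Nat.mul_pos (by omega) (by omega)
      linarith
    obtain ⟨d, rfl⟩ := Nat.exists_eq_add_of_lt e3
    exact ⟨d + 1, t3 + 1, by omega, by omega, by linarith⟩
  have hii' : b3 = 0 → (∀ m, m ≤ W → ¬ P2 n1 n2 n3 m 0) ∧
      ∃ A' s, 0 < A' ∧ A' ≤ W ∧ A' * n1 = s * n3 := by
    rintro rfl
    have e1 : ∀ m, m ≤ W → ¬ P2 n1 n2 n3 m 0 := by
      intro m hm h
      obtain ⟨c, rfl⟩ : ∃ c, b1 = c + 1 := ⟨b1 - 1, by omega⟩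
      exact hb1 c rfl (h.mono (by omega) le_rfl)
    refine ⟨e1, ?_⟩
    have e2 : s2 = 0 := by
      by_contra h
      obtain ⟨t, rfl⟩ := Nat.exists_eq_succ_of_ne_zero h
      exact e1 A (by omega) ⟨s1, t, s3 + 1, by simp only [Nat.succ_eq_add_one] at *; linarith⟩
    subst e2
    have e3 : s1 < A := by
      by_contra h
      push Not at h
      have := Nat.mul_le_mul_right n1 h
      have hp : 0 < (s3 + 1) * n3 := Nat.mul_pos (by omega) (by omega)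
      linarith
    obtain ⟨d, rfl⟩ := Nat.exists_eq_add_of_lt e3
    exact ⟨d + 1, s3 + 1, by omega, by omega, by linarith⟩
  -- case (iii)
  have hiii : a2 = 0 → (∀ m, m < a3 → ¬ P1 n1 n2 n3 0 m) ∧
      ∃ C t, C < a3 ∧ 0 < t ∧ 0 < C ∧ C * n3 = t * n2 := by
    rintro rfl
    have e1 : ∀ m, m < a3 → ¬ P1 n1 n2 n3 0 m := by
      intro m hm h
      obtain ⟨c, rfl⟩ : ∃ c, a3 = c + 1 := ⟨a3 - 1, by omega⟩
      exact ha3 c rfl (h.mono le_rfl (by omega))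
    refine ⟨e1, ?_⟩
    obtain ⟨c, rfl⟩ : ∃ c, a3 = c + 1 := ⟨a3 - 1, by omega⟩
    obtain ⟨x, y, z, h⟩ := hP1
    have hz : z = 0 := by
      by_contra hz
      obtain ⟨z', rfl⟩ := Nat.exists_eq_succ_of_ne_zero hz
      exact ha3 c rfl ⟨x, y, z', by simp only [Nat.succ_eq_add_one] at *; linarith⟩
    subst hz
    have hlt : c + 1 < x + 1 + y := by
      by_contra hk
      push Not at hk
      have e2 : (x + 1 + y) * n3 ≤ (c + 1) * n3 := Nat.mul_le_mul_right _ hk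
      have e3 : y * n2 ≤ y * n3 := Nat.mul_le_mul_left _ h23.le
      have e4 : (x + 1) * n1 < (x + 1) * n3 := Nat.mul_lt_mul_of_pos_left (by omega) (by omega)
      linarith
    obtain ⟨i1, i2, hi1, hi2, hiW, u1, u2, u3, hu⟩ := hW (x + 1) y ⟨0, 0, c, by linarith⟩
    obtain ⟨d1, hd1⟩ := Nat.exists_eq_add_of_le hi1
    obtain ⟨d2, rfl⟩ := Nat.exists_eq_add_of_le hi2
    have hd : d1 + u1 = 0 := by
      by_contra hne
      obtain ⟨e, he⟩ : ∃ e, d1 + u1 = e + 1 := ⟨d1 + u1 - 1, by omega⟩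
      refine e1 c (by omega) ⟨e, d2 + u2, u3, ?_⟩
      have e5 : (x + 1) * n1 = i1 * n1 + d1 * n1 := by rw [hd1]; ring
      have e6 : d1 * n1 + u1 * n1 = (e + 1) * n1 := by rw [← he]; ring
      linarith
    have hd1' : d1 = 0 := by omega
    have hu1' : u1 = 0 := by omega
    subst hd1' hu1'
    have hd2 : 0 < d2 := by omega
    have e7 : c * n3 = (d2 + u2) * n2 + u3 * n3 := by
      have e5 : (x + 1) * n1 = i1 * n1 := by rw [hd1]; ring
      linarith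
    have e8 : u3 < c := by
      by_contra h
      push Not at h
      have := Nat.mul_le_mul_right n3 h
      have : 0 < (d2 + u2) * n2 := Nat.mul_pos (by omega) (by omega)
      omega
    obtain ⟨g, rfl⟩ := Nat.exists_eq_add_of_lt e8
    exact ⟨g + 1, d2 + u2, by omega, by omega, by omega, by linarith⟩
  have hiii' : b1 = 0 → (∀ m, m < b3 → ¬ P2 n1 n2 n3 0 m) ∧
      ∃ C t, C < b3 ∧ 0 < t ∧ 0 < C ∧ C * n3 = t * n1 := by
    rintro rfl
    have e1 : ∀ m, m < b3 → ¬ P2 n1 n2 n3 0 m := by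
      intro m hm h
      obtain ⟨c, rfl⟩ : ∃ c, b3 = c + 1 := ⟨b3 - 1, by omega⟩
      exact hb3 c rfl (h.mono le_rfl (by omega))
    refine ⟨e1, ?_⟩
    obtain ⟨c, rfl⟩ : ∃ c, b3 = c + 1 := ⟨b3 - 1, by omega⟩
    obtain ⟨x, y, z, h⟩ := hP2
    have hz : z = 0 := by
      by_contra hz
      obtain ⟨z', rfl⟩ := Nat.exists_eq_succ_of_ne_zero hz
      exact hb3 c rfl ⟨x, y, z', by simp only [Nat.succ_eq_add_one] at *; linarith⟩
    subst hz
    have hlt : c + 1 < x + (y + 1) := by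
      by_contra hk
      push Not at hk
      have e2 : (x + (y + 1)) * n3 ≤ (c + 1) * n3 := Nat.mul_le_mul_right _ hk
      have e3 : x * n1 ≤ x * n3 := Nat.mul_le_mul_left _ (by omega)
      have e4 : (y + 1) * n2 < (y + 1) * n3 := Nat.mul_lt_mul_of_pos_left (by omega) (by omega)
      linarith
    obtain ⟨i1, i2, hi1, hi2, hiW, u1, u2, u3, hu⟩ := hW x (y + 1) ⟨0, 0, c, by linarith⟩
    obtain ⟨d1, rfl⟩ := Nat.exists_eq_add_of_le hi1
    obtain ⟨d2, hd2⟩ := Nat.exists_eq_add_of_le hi2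
    have hd : d2 + u2 = 0 := by
      by_contra hne
      obtain ⟨e, he⟩ : ∃ e, d2 + u2 = e + 1 := ⟨d2 + u2 - 1, by omega⟩
      refine e1 c (by omega) ⟨d1 + u1, e, u3, ?_⟩
      have e5 : (y + 1) * n2 = i2 * n2 + d2 * n2 := by rw [hd2]; ring
      have e6 : d2 * n2 + u2 * n2 = (e + 1) * n2 := by rw [← he]; ring
      linarith
    have hd1' : d2 = 0 := by omega
    have hu1' : u2 = 0 := by omega
    subst hd1' hu1'
    have hd2' : 0 < d1 := by omega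
    have e7 : c * n3 = (d1 + u1) * n1 + u3 * n3 := by
      have e5 : (y + 1) * n2 = i2 * n2 := by rw [hd2]; ring
      linarith
    have e8 : u3 < c := by
      by_contra h
      push Not at h
      have := Nat.mul_le_mul_right n3 h
      have : 0 < (d1 + u1) * n1 := Nat.mul_pos (by omega) (by omega)
      omega
    obtain ⟨g, rfl⟩ := Nat.exists_eq_add_of_lt e8
    exact ⟨g + 1, d1 + u1, by omega, by omega, by omega, by linarith⟩
  -- case (i')
  have hi' : b1 ≠ 0 → b3 ≠ 0 → ∃ c1 c3 m, m ≤ W ∧ b3 = c3 + 1 ∧ b1 = c1 + 1 ∧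
      (c1 + 1) * n1 + (c3 + 1) * n3 = m * n2 := by
    intro hb1' hb3'
    obtain ⟨c1, rfl⟩ := Nat.exists_eq_succ_of_ne_zero hb1'
    obtain ⟨c3, rfl⟩ := Nat.exists_eq_succ_of_ne_zero hb3'
    obtain ⟨x, y, z, h⟩ := hP2
    have hx : x = 0 := by
      by_contra hy
      obtain ⟨y', rfl⟩ := Nat.exists_eq_succ_of_ne_zero hy
      exact hb1 c1 rfl ⟨y', y, z, by simp only [Nat.succ_eq_add_one] at *; linarith⟩
    have hz : z = 0 := by
      by_contra hz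
      obtain ⟨z', rfl⟩ := Nat.exists_eq_succ_of_ne_zero hz
      exact hb3 c3 rfl ⟨x, y, z', by simp only [Nat.succ_eq_add_one] at *; linarith⟩
    subst hx hz
    simp only [Nat.succ_eq_add_one] at *
    refine ⟨c1, c3, y + 1, ?_, rfl, rfl, by linarith⟩
    by_contra hcon
    obtain ⟨d, hd⟩ : ∃ d, y + 1 = B + (d + 1) := ⟨y - B, by omega⟩
    refine hb3 c3 rfl ⟨t1, d + t2, t3, ?_⟩
    have e2 : (y + 1) * n2 = B * n2 + (d + 1) * n2 := by rw [hd]; ring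
    linarith
  -- combine
  rcases hi with h2 | h3
  · obtain ⟨e1, C, t, hC, ht0, hC0, hCt⟩ := hiii h2
    by_cases hb10 : b1 = 0
    · obtain ⟨e2, C', t', hC', ht', hC0', hCt'⟩ := hiii' hb10
      have f1 : b3 ≤ C := by
        by_contra h
        refine e2 C (by omega) ?_
        obtain ⟨t0, rfl⟩ := Nat.exists_eq_add_of_lt ht0
        exact ⟨0, t0, 0, by linarith⟩
      have f2 : a3 ≤ C' := by
        by_contra h
        refine e1 C' (by omega) ?_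
        obtain ⟨t0, rfl⟩ := Nat.exists_eq_add_of_lt ht'
        exact ⟨t0, 0, 0, by linarith⟩
      omega
    by_cases hb30 : b3 = 0
    · obtain ⟨e2, A', s', hA', hA'W, hAs⟩ := hii' hb30
      have f1 : a3 ≤ s' := by
        by_contra h
        refine e1 s' (by omega) ?_
        obtain ⟨t0, rfl⟩ := Nat.exists_eq_add_of_lt hA'
        exact ⟨t0, 0, 0, by linarith⟩
      obtain ⟨d, rfl⟩ : ∃ d, s' = C + d := ⟨s' - C, by omega⟩
      refine e2 A' hA'W ?_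
      obtain ⟨t0, rfl⟩ := Nat.exists_eq_add_of_lt ht0
      exact ⟨0, t0, d, by linarith⟩
    · obtain ⟨c1, c3, m, hm, rfl, rfl, hmn⟩ := hi' hb10 hb30
      rcases le_or_gt m t with hmt | hmt
      · obtain ⟨d, rfl⟩ := Nat.exists_eq_add_of_le hmt
        exact e1 C hC ⟨c1, d, c3 + 1, by linarith⟩
      · obtain ⟨d, rfl⟩ := Nat.exists_eq_add_of_lt hmt
        obtain ⟨g, rfl⟩ := Nat.exists_eq_add_of_lt hC0
        exact hb3 c3 rfl ⟨0, d, g, by linarith⟩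
  · obtain ⟨e1, B', s, hB', hB'W, hBs⟩ := hii h3
    by_cases hb10 : b1 = 0
    · obtain ⟨e2, C', t', hC', ht', hC0', hCt'⟩ := hiii' hb10
      have f1 : b3 ≤ s := by
        by_contra h
        refine e2 s (by omega) ?_
        obtain ⟨t0, rfl⟩ := Nat.exists_eq_add_of_lt hB'
        exact ⟨0, t0, 0, by linarith⟩
      obtain ⟨d, rfl⟩ : ∃ d, s = C' + d := ⟨s - C', by omega⟩
      refine e1 B' hB'W ?_
      obtain ⟨t0, rfl⟩ := Nat.exists_eq_add_of_lt ht'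
      exact ⟨t0, 0, d, by linarith⟩
    by_cases hb30 : b3 = 0
    · obtain ⟨e2, A', s', hA', hA'W, hAs⟩ := hii' hb30
      rcases le_or_gt s s' with hss | hss
      · obtain ⟨d, rfl⟩ := Nat.exists_eq_add_of_le hss
        refine e2 A' hA'W ?_
        obtain ⟨t0, rfl⟩ := Nat.exists_eq_add_of_lt hB'
        exact ⟨0, t0, d, by linarith⟩
      · obtain ⟨d, rfl⟩ := Nat.exists_eq_add_of_lt hss
        refine e1 B' hB'W ?_
        obtain ⟨t0, rfl⟩ := Nat.exists_eq_add_of_lt hA'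
        exact ⟨t0, 0, d + 1, by linarith⟩
    · obtain ⟨c1, c3, m, hm, rfl, rfl, hmn⟩ := hi' hb10 hb30
      exact e1 m hm ⟨c1, 0, c3 + 1, by linarith⟩

/-! ### Omega-primality -/

/-- The relation `x ⪯_Γ y`, i.e. `y - x ∈ Γ`. -/
def Pre (G : AddSubmonoid ℕ) (x y : ℕ) : Prop := ∃ g ∈ G, y = x + g

/-- The property of `N` in the definition of the omega-primality of `x`: whenever `a₁, …, a_r ∈ Γ` satisfy
`x ⪯_Γ a₁ + ⋯ + a_r`, there is `T ⊆ {1, …, r}` with `|T| ≤ N` and `x ⪯_Γ ∑_{i ∈ T} a_i`. -/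
def IsBound (G : AddSubmonoid ℕ) (x N : ℕ) : Prop :=
  ∀ (r : ℕ) (a : Fin r → ℕ), (∀ i, a i ∈ G) → Pre G x (∑ i, a i) →
    ∃ T : Finset (Fin r), T.card ≤ N ∧ Pre G x (∑ i ∈ T, a i)

/-- The omega-primality value `ω(x)`: the least positive `N` with the above property. -/
noncomputable def omega (G : AddSubmonoid ℕ) (x : ℕ) : ℕ := sInf {N : ℕ | 0 < N ∧ IsBound G x N}

theorem exists_sub {r : ℕ} (x : Fin r → ℕ) (e : ℕ) (he : e ≤ ∑ i, x i) :
    ∃ T : Finset (Fin r), T.card ≤ e ∧ e ≤ ∑ i ∈ T, x i := by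
  classical
  set S : Finset (Fin r) := Finset.univ.filter fun i => x i ≠ 0 with hS
  have hsum : ∑ i, x i = ∑ i ∈ S, x i := by
    rw [hS, Finset.sum_filter_ne_zero]
  rcases le_total S.card e with h | h
  · exact ⟨S, h, by rw [← hsum]; exact he⟩
  · obtain ⟨T, hT, hc⟩ := Finset.exists_subset_card_eq h
    refine ⟨T, hc.le, ?_⟩
    calc e = ∑ _i ∈ T, 1 := by simp [hc]
      _ ≤ ∑ i ∈ T, x i := Finset.sum_le_sum fun i hi => by
        have := (Finset.mem_filter.1 (hT hi)).2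
        omega

theorem omega_spec (G : AddSubmonoid ℕ) (hfin : ((G : Set ℕ)ᶜ).Finite) (x : ℕ) :
    0 < omega G x ∧ IsBound G x (omega G x) := by
  classical
  obtain ⟨K, hK⟩ := hfin.bddAbove
  have hmem : ∀ m, K < m → m ∈ G := by
    intro m hm
    by_contra h
    exact absurd (hK h) (by omega)
  refine Nat.sInf_mem (s := {N : ℕ | 0 < N ∧ IsBound G x N}) ⟨x + K + 1, by omega, ?_⟩
  intro r a _ h
  set S : Finset (Fin r) := Finset.univ.filter fun i => a i ≠ 0 with hS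
  have hsum : ∑ i, a i = ∑ i ∈ S, a i := by
    rw [hS, Finset.sum_filter_ne_zero]
  rcases le_total S.card (x + K + 1) with hc | hc
  · exact ⟨S, hc, by rw [← hsum]; exact h⟩
  · obtain ⟨T, hT, hcT⟩ := Finset.exists_subset_card_eq hc
    have h1 : x + K + 1 ≤ ∑ i ∈ T, a i :=
      calc x + K + 1 = ∑ _i ∈ T, 1 := by simp [hcT]
        _ ≤ ∑ i ∈ T, a i := Finset.sum_le_sum fun i hi => by
          have := (Finset.mem_filter.1 (hT hi)).2
          omega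
    refine ⟨T, hcT.le, (∑ i ∈ T, a i) - x, hmem _ (by omega), by omega⟩

theorem not_bound (G : AddSubmonoid ℕ) (x W : ℕ) (hW : 0 < W) (h : W < omega G x) :
    ¬ IsBound G x W := by
  intro hb
  exact Nat.notMem_of_lt_sInf h ⟨hW, hb⟩

/-- The numbers generated by `p`, `q`, `s`. -/
def Gen (G : AddSubmonoid ℕ) (p q s : ℕ) : Prop :=
  ∀ m, m ∈ G ↔ ∃ x y z : ℕ, m = x * p + y * q + z * s

theorem exists_bullet (G : AddSubmonoid ℕ) (p q s W : ℕ) (hG : Gen G p q s) (hW : 0 < W)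
    (h : ¬ IsBound G p W) : ∃ e f : ℕ, W < e + f ∧ Pre G p (e * q + f * s) ∧
      (∀ e', e = e' + 1 → ¬ Pre G p (e' * q + f * s)) ∧
      (∀ f', f = f' + 1 → ¬ Pre G p (e * q + f' * s)) := by
  classical
  unfold IsBound at h
  push Not at h
  obtain ⟨r, a, ha, hpre, hT⟩ := h
  choose x y z hxyz using fun i => (hG (a i)).1 (ha i)
  -- the possible sizes of collections of atoms
  let C : ℕ → Prop := fun k => ∃ e1 e2 e3 : ℕ, e1 + e2 + e3 = k ∧ e1 ≤ ∑ i, x i ∧ e2 ≤ ∑ i, y i ∧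
    e3 ≤ ∑ i, z i ∧ Pre G p (e1 * p + e2 * q + e3 * s)
  have hC : ∃ k, C k := by
    refine ⟨_, ∑ i, x i, ∑ i, y i, ∑ i, z i, rfl, le_rfl, le_rfl, le_rfl, ?_⟩
    have : ∑ i, a i = (∑ i, x i) * p + (∑ i, y i) * q + (∑ i, z i) * s := by
      rw [Finset.sum_mul, Finset.sum_mul, Finset.sum_mul, ← Finset.sum_add_distrib,
        ← Finset.sum_add_distrib]
      exact Finset.sum_congr rfl fun i _ => hxyz i
    rw [← this]
    exact hpre
  obtain ⟨e1, e2, e3, hk, h1, h2, h3, hP⟩ := Nat.find_spec hC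
  have hmin : ∀ k, C k → e1 + e2 + e3 ≤ k := fun k hk' => hk ▸ Nat.find_min' hC hk'
  have hgt : W < e1 + e2 + e3 := by
    by_contra hcon
    push Not at hcon
    obtain ⟨T1, c1, d1⟩ := exists_sub x e1 h1
    obtain ⟨T2, c2, d2⟩ := exists_sub y e2 h2
    obtain ⟨T3, c3, d3⟩ := exists_sub z e3 h3
    set T := T1 ∪ T2 ∪ T3 with hTdef
    have hc : T.card ≤ W := by
      rw [hTdef]
      have := Finset.card_union_le (T1 ∪ T2) T3
      have := Finset.card_union_le T1 T2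
      omega
    refine hT T hc ?_
    have m1 : e1 ≤ ∑ i ∈ T, x i := d1.trans (Finset.sum_le_sum_of_subset (by
      intro i hi; simp [hTdef, hi]))
    have m2 : e2 ≤ ∑ i ∈ T, y i := d2.trans (Finset.sum_le_sum_of_subset (by
      intro i hi; simp [hTdef, hi]))
    have m3 : e3 ≤ ∑ i ∈ T, z i := d3.trans (Finset.sum_le_sum_of_subset (by
      intro i hi; simp [hTdef, hi]))
    have hs : ∑ i ∈ T, a i = (∑ i ∈ T, x i) * p + (∑ i ∈ T, y i) * q + (∑ i ∈ T, z i) * s := by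
      rw [Finset.sum_mul, Finset.sum_mul, Finset.sum_mul, ← Finset.sum_add_distrib,
        ← Finset.sum_add_distrib]
      exact Finset.sum_congr rfl fun i _ => hxyz i
    obtain ⟨g, hg, hge⟩ := hP
    obtain ⟨u1, hu1⟩ := Nat.exists_eq_add_of_le m1
    obtain ⟨u2, hu2⟩ := Nat.exists_eq_add_of_le m2
    obtain ⟨u3, hu3⟩ := Nat.exists_eq_add_of_le m3
    refine ⟨g + (u1 * p + u2 * q + u3 * s), G.add_mem hg ((hG _).2 ⟨u1, u2, u3, rfl⟩), ?_⟩
    rw [hs, hu1, hu2, hu3]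
    linarith
  have he1 : e1 = 0 := by
    by_contra hne
    have h4 := hmin 1 ⟨1, 0, 0, rfl, by omega, by omega, by omega, 0, G.zero_mem, by ring⟩
    omega
  subst he1
  refine ⟨e2, e3, by omega, by simpa using hP, fun e' he' hcon => ?_, fun f' hf' hcon => ?_⟩
  · have h4 := hmin (e' + e3) ⟨0, e', e3, by omega, by omega, by omega, h3, by simpa using hcon⟩
    omega
  · have h4 := hmin (e2 + f') ⟨0, e2, f', by omega, by omega, h2, by omega, by simpa using hcon⟩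
    omega

theorem use_bound (G : AddSubmonoid ℕ) (p q s W : ℕ) (hp : p ∈ G) (hq : q ∈ G) (h : IsBound G s W)
    (j1 j2 : ℕ) (hj : Pre G s (j1 * p + j2 * q)) :
    ∃ i1 i2, i1 ≤ j1 ∧ i2 ≤ j2 ∧ i1 + i2 ≤ W ∧ Pre G s (i1 * p + i2 * q) := by
  classical
  let a : Fin (j1 + j2) → ℕ := Fin.append (fun _ : Fin j1 => p) (fun _ : Fin j2 => q)
  have ha : ∀ i, a i ∈ G := by
    intro i
    refine Fin.addCases (fun k => ?_) (fun k => ?_) i
    · simp only [a, Fin.append_left]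
      exact hp
    · simp only [a, Fin.append_right]
      exact hq
  have hsum : ∑ i, a i = j1 * p + j2 * q := by
    rw [Fin.sum_univ_add]
    simp [a]
  obtain ⟨T, hT, hP⟩ := h (j1 + j2) a ha (by rw [hsum]; exact hj)
  have hs : ∑ i ∈ T, a i = ∑ i, if i ∈ T then a i else 0 := by
    rw [← Finset.sum_filter]
    simp
  have hc : T.card = ∑ i, if i ∈ T then 1 else 0 := by
    rw [Finset.sum_ite_mem]
    simp
  rw [Fin.sum_univ_add] at hs hc
  have hs1 : (∑ i : Fin j1, if Fin.castAdd j2 i ∈ T then a (Fin.castAdd j2 i) else 0) =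
      (∑ i : Fin j1, if Fin.castAdd j2 i ∈ T then 1 else 0) * p := by
    rw [Finset.sum_mul]
    refine Finset.sum_congr rfl fun i _ => ?_
    simp [a]
  have hs2 : (∑ i : Fin j2, if Fin.natAdd j1 i ∈ T then a (Fin.natAdd j1 i) else 0) =
      (∑ i : Fin j2, if Fin.natAdd j1 i ∈ T then 1 else 0) * q := by
    rw [Finset.sum_mul]
    refine Finset.sum_congr rfl fun i _ => ?_
    simp [a]
  refine ⟨_, _, ?_, ?_, hc ▸ hT, ?_⟩
  · calc _ ≤ ∑ _i : Fin j1, 1 := Finset.sum_le_sum fun i _ => by split_ifs <;> simp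
      _ = j1 := by simp
  · calc _ ≤ ∑ _i : Fin j2, 1 := Finset.sum_le_sum fun i _ => by split_ifs <;> simp
      _ = j2 := by simp
  · rw [← hs1, ← hs2, ← hs]
    exact hP

theorem gen_closure (n1 n2 n3 : ℕ) : Gen (AddSubmonoid.closure {n1, n2, n3}) n1 n2 n3 := by
  intro m
  constructor
  · intro h
    induction h using AddSubmonoid.closure_induction with
    | mem x hx =>
      rcases hx with rfl | rfl | rfl
      · exact ⟨1, 0, 0, by ring⟩
      · exact ⟨0, 1, 0, by ring⟩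
      · exact ⟨0, 0, 1, by ring⟩
    | zero => exact ⟨0, 0, 0, by ring⟩
    | add x y _ _ hx hy =>
      obtain ⟨a, b, c, rfl⟩ := hx
      obtain ⟨a', b', c', rfl⟩ := hy
      exact ⟨a + a', b + b', c + c', by ring⟩
  · rintro ⟨x, y, z, rfl⟩
    have h1 : n1 ∈ AddSubmonoid.closure {n1, n2, n3} := AddSubmonoid.subset_closure (by simp)
    have h2 : n2 ∈ AddSubmonoid.closure {n1, n2, n3} := AddSubmonoid.subset_closure (by simp)
    have h3 : n3 ∈ AddSubmonoid.closure {n1, n2, n3} := AddSubmonoid.subset_closure (by simp)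
    have := AddSubmonoid.add_mem _ (AddSubmonoid.add_mem _ (AddSubmonoid.nsmul_mem _ h1 x)
      (AddSubmonoid.nsmul_mem _ h2 y)) (AddSubmonoid.nsmul_mem _ h3 z)
    simpa [smul_eq_mul] using this

theorem Gen.swap {G : AddSubmonoid ℕ} {p q s : ℕ} (h : Gen G p q s) : Gen G q p s := by
  intro m
  rw [h m]
  constructor
  · rintro ⟨x, y, z, rfl⟩
    exact ⟨y, x, z, by ring⟩
  · rintro ⟨x, y, z, rfl⟩
    exact ⟨y, x, z, by ring⟩

/-- `min (ω(n₁)) (ω(n₂)) ≤ ω(n₃)`. -/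
theorem min_le (n1 n2 n3 : ℕ) (h1 : 0 < n1) (h12 : n1 < n2) (h23 : n2 < n3) (G : AddSubmonoid ℕ)
    (hG : Gen G n1 n2 n3) (hfin : ((G : Set ℕ)ᶜ).Finite) :
    omega G n1 ≤ omega G n3 ∨ omega G n2 ≤ omega G n3 := by
  by_contra hcon
  push Not at hcon
  obtain ⟨hc1, hc2⟩ := hcon
  obtain ⟨hW0, hW⟩ := omega_spec G hfin n3
  set W := omega G n3 with hWdef
  have m1 : n1 ∈ G := (hG n1).2 ⟨1, 0, 0, by ring⟩
  have m2 : n2 ∈ G := (hG n2).2 ⟨0, 1, 0, by ring⟩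
  obtain ⟨a2, a3, ha, hPa, ha2, ha3⟩ :=
    exists_bullet G n1 n2 n3 W hG hW0 (not_bound G n1 W hW0 hc1)
  obtain ⟨b1, b3, hb, hPb, hb1, hb3⟩ :=
    exists_bullet G n2 n1 n3 W hG.swap hW0 (not_bound G n2 W hW0 hc2)
  have t1 : ∀ a b, Pre G n1 (a * n2 + b * n3) ↔ P1 n1 n2 n3 a b := by
    intro a b
    constructor
    · rintro ⟨g, hg, h⟩
      obtain ⟨x, y, z, rfl⟩ := (hG g).1 hg
      exact ⟨x, y, z, by rw [h]; ring⟩
    · rintro ⟨x, y, z, h⟩
      exact ⟨x * n1 + y * n2 + z * n3, (hG _).2 ⟨x, y, z, rfl⟩, by rw [h]; ring⟩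
  have t2 : ∀ a b, Pre G n2 (a * n1 + b * n3) ↔ P2 n1 n2 n3 a b := by
    intro a b
    constructor
    · rintro ⟨g, hg, h⟩
      obtain ⟨x, y, z, rfl⟩ := (hG g).1 hg
      exact ⟨x, y, z, by rw [h]; ring⟩
    · rintro ⟨x, y, z, h⟩
      exact ⟨x * n1 + y * n2 + z * n3, (hG _).2 ⟨x, y, z, rfl⟩, by rw [h]; ring⟩
  have t3 : ∀ a b, Pre G n3 (a * n1 + b * n2) ↔ P3 n1 n2 n3 a b := by
    intro a b
    constructor
    · rintro ⟨g, hg, h⟩
      obtain ⟨x, y, z, rfl⟩ := (hG g).1 hg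
      exact ⟨x, y, z, by rw [h]; ring⟩
    · rintro ⟨x, y, z, h⟩
      exact ⟨x * n1 + y * n2 + z * n3, (hG _).2 ⟨x, y, z, rfl⟩, by rw [h]; ring⟩
  refine core n1 n2 n3 W h1 h12 h23 (fun j1 j2 hj => ?_) a2 a3 ha ((t1 _ _).1 hPa)
    (fun a h hc => ha2 a h ((t1 _ _).2 hc)) (fun a h hc => ha3 a h ((t1 _ _).2 hc))
    b1 b3 hb ((t2 _ _).1 hPb) (fun a h hc => hb1 a h ((t2 _ _).2 hc))
    (fun a h hc => hb3 a h ((t2 _ _).2 hc))
  obtain ⟨i1, i2, g1, g2, g3, g4⟩ := use_bound G n1 n2 n3 W m1 m2 hW j1 j2 ((t3 _ _).2 hj)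
  exact ⟨i1, i2, g1, g2, g3, (t3 _ _).1 g4⟩

/-- **Q1 (proved).** Let `0 < n₁ < n₂ < n₃` generate a numerical monoid `Γ` (an additive submonoid of `ℕ`
with finite complement; minimality of the generators is not needed). Then `min (ω(n₁)) (ω(n₂)) ≤ ω(n₃)`,
hence none of the orderings (a), (b), (c) holds. -/
theorem result (n1 n2 n3 : ℕ) (h1 : 0 < n1) (h12 : n1 < n2) (h23 : n2 < n3)
    (hfin : (((AddSubmonoid.closure {n1, n2, n3} : AddSubmonoid ℕ) : Set ℕ)ᶜ).Finite) :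
    let ω := omega (AddSubmonoid.closure {n1, n2, n3})
    min (ω n1) (ω n2) ≤ ω n3 ∧
    ¬ (ω n1 > ω n2 ∧ ω n2 > ω n3) ∧
    ¬ (ω n1 = ω n2 ∧ ω n2 > ω n3) ∧
    ¬ (ω n3 < ω n1 ∧ ω n1 < ω n2) := by
  intro ω
  have h := min_le n1 n2 n3 h1 h12 h23 _ (gen_closure n1 n2 n3) hfin
  have h' : ω n1 ≤ ω n3 ∨ ω n2 ≤ ω n3 := h
  refine ⟨min_le_iff.2 h', ?_, ?_, ?_⟩ <;> omega

end Pool.Agent.Results.MP_1fb722_al.OmegaOrderings
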